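import Pool.Agent.Helper78.SD.Goals

/-!
# Packet F2
-/

universe u v w x

namespace Pool.Agent.Helper90.SD

open Pool.Agent.Helper10.Width Pool.Agent.Helper72.Width Pool.Agent.Helper78.SD

section

variable {S : Type u} [Ring S] {S₀ : Subring S} {J : Type w} (B : CBasis S₀ J)

theorem co_eq_zero {t : S} {g : J} (h : g ∉ (B.basis.repr t).support) : B.co g t = 0 := by
  simpa [CBasis.co] using h

theorem sum_co_smul {M : Type x} [AddCommGroup M] [Module S M] (t : S) (U : Finset J)
    (hU : (B.basis.repr t).support ⊆ U) (z : M) :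
    ∑ g ∈ U, B.co g t • (B.el g • z) = t • z := by
  have h1 : ∑ g ∈ U, B.co g t • (B.el g • z) =
      ∑ g ∈ (B.basis.repr t).support, B.co g t • (B.el g • z) := by
    refine (Finset.sum_subset hU fun g _ hg => ?_).symm
    rw [co_eq_zero B hg, zero_smul]
  rw [h1]
  conv_rhs => rw [← B.sum_co t, Finset.sum_smul]
  refine Finset.sum_congr rfl fun g _ => ?_
  rw [mul_smul]
  rfl

variable (φ : PP S)

open Classical in
/-- The indices occurring in the equation `(r, h)`. -/
noncomputable def GG (r : Fin φ.n) (h : J) : Finset J :=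
  Finset.univ.biUnion fun l : Fin φ.k => (B.basis.repr (B.el h * φ.b r l)).support

theorem sub_GG (r : Fin φ.n) (h : J) (l : Fin φ.k) :
    (B.basis.repr (B.el h * φ.b r l)).support ⊆ GG B φ r h := by
  classical
  exact Finset.subset_biUnion_of_mem (fun l : Fin φ.k =>
    (B.basis.repr (B.el h * φ.b r l)).support) (Finset.mem_univ l)

/-- The coefficients of the equation `(r, h)`. -/
noncomputable def cf (r : Fin φ.n) (h : J) : (Fin φ.k × J) →₀ S₀ :=
  Finsupp.onFinset (Finset.univ ×ˢ GG B φ r h) (fun p => B.co p.2 (B.el h * φ.b r p.1)) (by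
    rintro ⟨l, g⟩ hp
    rw [Finset.mem_product]
    refine ⟨Finset.mem_univ _, ?_⟩
    by_contra hg
    exact hp (co_eq_zero B fun h' => hg (sub_GG B φ r h l h')))

theorem cf_sum {N : Type v} [AddCommGroup N] [Module S₀ N] (r : Fin φ.n) (h : J) (U : Finset J)
    (hU : GG B φ r h ⊆ U) (Y : Fin φ.k × J → N) :
    (cf B φ r h).sum (fun k s => s • Y k) =
      ∑ l, ∑ g ∈ U, B.co g (B.el h * φ.b r l) • Y (l, g) := by
  have h1 : (cf B φ r h).support ⊆ Finset.univ ×ˢ U :=
    (Finsupp.support_onFinset_subset).trans (Finset.product_subset_product (le_refl _) hU)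
  rw [Finsupp.sum_of_support_subset _ h1 (fun k s => s • Y k) (fun _ _ => zero_smul _ _),
    Finset.sum_product]
  rfl

/-- The equation `(r, h)`. -/
def Eqn {N : Type v} [AddCommGroup N] [Module S₀ N] (a : N) (j : J) (r : Fin φ.n) (h : J)
    (Y : Fin φ.k × J → N) : Prop :=
  (cf B φ r h).sum (fun k s => s • Y k) = -(B.co j (B.el h * φ.a r) • a)

end

theorem goalF2 : GoalF2.{u, v, w, x} := by
  intro S _ S₀ J B N _ _ _ _ _ _ _ φ a j hx
  classical
  -- a finite unsolvable subsystem
  have hH : ∃ H : Finset J, ¬ ∃ Y : Fin φ.k × J → N, ∀ r, ∀ h ∈ H, Eqn B φ a j r h Y := by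
    by_contra hcon
    push Not at hcon
    apply hx
    set E : Set (((Fin φ.k × J) →₀ S₀) × N) :=
      {e | ∃ r h, e = (cf B φ r h, -(B.co j (B.el h * φ.a r) • a))} with hE
    obtain ⟨Y, hY⟩ := exists_solution_of_finite E (by
      intro F hF
      choose r h hrh using fun e : F => hF e.2
      obtain ⟨Y, hY⟩ := hcon (Finset.univ.image h)
      refine ⟨Y, fun e he => ?_⟩
      have h1 := hY (r ⟨e, he⟩) (h ⟨e, he⟩) (Finset.mem_image_of_mem _ (Finset.mem_univ _))
      have h2 := hrh ⟨e, he⟩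
      simp only at h2
      rw [h2]
      exact h1)
    have hY' : ∀ r h, Eqn B φ a j r h Y := fun r h => hY _ ⟨r, h, rfl⟩
    -- the elements of the coinduced module
    let y : Fin φ.k → Coind S₀ N := fun l =>
      (B.basis.constr ℕ (fun g => Y (l, g)) : S →ₗ[S₀] N)
    refine ⟨y, fun r => ?_⟩
    have key : ∀ h, (φ.a r • (B.pr j a : Coind S₀ N) + ∑ l, φ.b r l • y l) (B.el h) = 0 := by
      intro h
      have e1 : (φ.a r • (B.pr j a : Coind S₀ N) + ∑ l, φ.b r l • y l) (B.el h) =
          B.co j (B.el h * φ.a r) • a + ∑ l, (y l) (B.el h * φ.b r l) := by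
        rw [Coind.add_apply, Coind.smul_apply, B.pr_apply]
        congr 1
        have : ∀ F : Finset (Fin φ.k), (∑ l ∈ F, φ.b r l • y l) (B.el h) =
            ∑ l ∈ F, (y l) (B.el h * φ.b r l) := by
          intro F
          induction F using Finset.induction_on with
          | empty => rfl
          | insert l F hl ih =>
            rw [Finset.sum_insert hl, Finset.sum_insert hl, Coind.add_apply, ih]
            rfl
        exact this _
      rw [e1]
      have e2 : ∑ l, (y l) (B.el h * φ.b r l) = (cf B φ r h).sum (fun k s => s • Y k) := by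
        rw [cf_sum B φ r h (GG B φ r h) (le_refl _)]
        refine Finset.sum_congr rfl fun l _ => ?_
        show (B.basis.constr ℕ (fun g => Y (l, g))) (B.el h * φ.b r l) = _
        rw [Module.Basis.constr_apply]
        rw [Finsupp.sum_of_support_subset _ (sub_GG B φ r h l) (fun b s => s • Y (l, b))
          (fun _ _ => zero_smul _ _)]
        rfl
      rw [e2, hY' r h]
      abel
    exact B.basis.ext (f₁ := (φ.a r • (B.pr j a : Coind S₀ N) + ∑ l, φ.b r l • y l :
      Coind S₀ N)) (f₂ := (0 : S →ₗ[S₀] N)) key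
  obtain ⟨H, hH⟩ := hH
  set Q : Finset J := insert j (Finset.univ.biUnion fun r : Fin φ.n => H.biUnion fun h =>
    (B.basis.repr (B.el h * φ.a r)).support) with hQ
  set G : Finset J := Finset.univ.biUnion fun r : Fin φ.n => H.biUnion fun h => GG B φ r h with hG
  have hQs : ∀ r, ∀ h ∈ H, (B.basis.repr (B.el h * φ.a r)).support ⊆ Q := by
    intro r h hh g hg
    rw [hQ, Finset.mem_insert, Finset.mem_biUnion]
    refine Or.inr ⟨r, Finset.mem_univ _, ?_⟩
    rw [Finset.mem_biUnion]
    exact ⟨h, hh, hg⟩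
  have hGs : ∀ r, ∀ h ∈ H, GG B φ r h ⊆ G := by
    intro r h hh g hg
    rw [hG, Finset.mem_biUnion]
    refine ⟨r, Finset.mem_univ _, ?_⟩
    rw [Finset.mem_biUnion]
    exact ⟨h, hh, hg⟩
  have hjQ : j ∈ Q := Finset.mem_insert_self _ _
  set q : Fin Q.card → J := fun i => (Q.equivFin.symm i : J) with hq
  have hqi : Function.Injective q := fun i i' h => Q.equivFin.symm.injective (Subtype.ext h)
  set θ : NPP S₀ Q.card := NPP.mk' (ι := Fin φ.n × H) (κ := Fin φ.k × G)
    (fun p i => B.co (q i) (B.el p.2.1 * φ.a p.1))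
    (fun p c => B.co c.2.1 (B.el p.2.1 * φ.b p.1 c.1)) with hθ
  refine ⟨Q.card, q, θ, hqi, ?_, Q.equivFin ⟨j, hjQ⟩, ?_⟩
  · intro M _ _ z hz
    obtain ⟨y, hy⟩ := hz
    rw [hθ, NPP.mem_mk']
    refine ⟨fun c => B.el c.2.1 • y c.1, fun p => ?_⟩
    have e1 : ∑ i, B.co (q i) (B.el p.2.1 * φ.a p.1) • (B.el (q i) • z) =
        (B.el p.2.1 * φ.a p.1) • z := by
      rw [← sum_co_smul B (B.el p.2.1 * φ.a p.1) Q (hQs p.1 p.2.1 p.2.2) z]
      rw [← Finset.sum_coe_sort Q (fun g => B.co g (B.el p.2.1 * φ.a p.1) • (B.el g • z))]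
      exact Fintype.sum_equiv Q.equivFin.symm _ _ fun _ => rfl
    have e2 : ∑ c : Fin φ.k × G, B.co c.2.1 (B.el p.2.1 * φ.b p.1 c.1) • (B.el c.2.1 • y c.1) =
        ∑ l, (B.el p.2.1 * φ.b p.1 l) • y l := by
      rw [Fintype.sum_prod_type]
      refine Finset.sum_congr rfl fun l _ => ?_
      rw [← sum_co_smul B (B.el p.2.1 * φ.b p.1 l) G
        ((sub_GG B φ p.1 p.2.1 l).trans (hGs p.1 p.2.1 p.2.2)) (y l)]
      exact Finset.sum_coe_sort G (fun g => B.co g (B.el p.2.1 * φ.b p.1 l) • (B.el g • y l))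
    rw [e1, e2]
    have := congrArg (fun m => B.el p.2.1 • m) (hy p.1)
    simp only [smul_add, Finset.smul_sum, smul_zero] at this
    rw [← this]
    simp only [mul_smul]
  · intro hsol
    rw [NPP.mem_comp, hθ, NPP.mem_mk'] at hsol
    obtain ⟨Y', hY'⟩ := hsol
    apply hH
    refine ⟨fun c => if hg : c.2 ∈ G then Y' (c.1, ⟨c.2, hg⟩) else 0, fun r h hh => ?_⟩
    unfold Eqn
    have h1 := hY' (r, ⟨h, hh⟩)
    rw [Fintype.sum_prod_type, Finset.sum_eq_single (Q.equivFin ⟨j, hjQ⟩)] at h1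
    · rw [Pi.single_eq_same] at h1
      have hqj : q (Q.equivFin ⟨j, hjQ⟩) = j := by
        rw [hq]
        simp
      rw [hqj] at h1
      rw [cf_sum B φ r h G (hGs r h hh)]
      rw [eq_neg_iff_add_eq_zero, add_comm, ← h1]
      congr 1
      refine Finset.sum_congr rfl fun l _ => ?_
      rw [← Finset.sum_coe_sort G]
      refine Finset.sum_congr rfl fun g _ => ?_
      rw [dif_pos g.2]
    · intro i _ hi
      rw [Pi.single_eq_of_ne hi, smul_zero]
    · intro h'
      exact absurd (Finset.mem_univ _) h'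

end Pool.Agent.Helper90.SD
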